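import Pool.Agent.H8.UG.TargetsF
import Pool.Agent.H78.UB.STZ

set_option autoImplicit false

namespace Pool.Agent.H1.UG

open Pool.Agent.H8.UG Pool.Agent.H8.UB

/-- a finitely generated field is the field of fractions of a quotient of a polynomial ring -/
theorem fg_frac {K k : Type} [Field K] [Field k] [Algebra K k]
    (h : (⊤ : IntermediateField K k).FG) :
    ∃ (m : ℕ) (P : Ideal (MvPolynomial (Fin m) K)) (_ : P.IsPrime),
      Nonempty (k ≃+* FractionRing (MvPolynomial (Fin m) K ⧸ P)) := by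
  obtain ⟨t, ht⟩ := h
  let e : Fin t.card ≃ t := t.equivFin.symm
  let φ : MvPolynomial (Fin t.card) K →ₐ[K] k := MvPolynomial.aeval fun i => (e i : k)
  have hP : (RingHom.ker φ).IsPrime := RingHom.ker_isPrime φ
  refine ⟨t.card, RingHom.ker φ, hP, ?_⟩
  let f : (MvPolynomial (Fin t.card) K ⧸ RingHom.ker φ) →+* k :=
    Ideal.Quotient.lift (RingHom.ker φ) (φ : MvPolynomial (Fin t.card) K →+* k)
      (fun a ha => RingHom.mem_ker.1 ha)
  have hf : Function.Injective f := by
    rw [injective_iff_map_eq_zero]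
    intro a ha
    obtain ⟨a, rfl⟩ := Ideal.Quotient.mk_surjective a
    exact Ideal.Quotient.eq_zero_iff_mem.2 (RingHom.mem_ker.2 ha)
  let ψ : FractionRing (MvPolynomial (Fin t.card) K ⧸ RingHom.ker φ) →+* k :=
    IsFractionRing.lift hf
  have hψ : ∀ a : MvPolynomial (Fin t.card) K,
      ψ (algebraMap _ _ (Ideal.Quotient.mk (RingHom.ker φ) a)) = φ a := by
    intro a
    change IsFractionRing.lift hf _ = _
    rw [IsFractionRing.lift_algebraMap]
    rfl
  have hsurj : Function.Surjective ψ := by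
    have h1 : Subfield.closure (Set.range (algebraMap K k) ∪ (t : Set k)) ≤ ψ.fieldRange := by
      rw [Subfield.closure_le]
      rintro x (⟨a, rfl⟩ | hx)
      · refine ⟨algebraMap _ _ (Ideal.Quotient.mk (RingHom.ker φ) (MvPolynomial.C a)), ?_⟩
        rw [hψ]
        exact MvPolynomial.aeval_C _ _
      · refine ⟨algebraMap _ _ (Ideal.Quotient.mk (RingHom.ker φ)
          (MvPolynomial.X (e.symm ⟨x, hx⟩))), ?_⟩
        rw [hψ]
        change MvPolynomial.aeval _ _ = _
        rw [MvPolynomial.aeval_X, Equiv.apply_symm_apply]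
    intro x
    have h2 : x ∈ IntermediateField.adjoin K (t : Set k) := by
      rw [ht]
      exact IntermediateField.mem_top
    obtain ⟨y, hy⟩ := h1 (show x ∈ Subfield.closure _ from h2)
    exact ⟨y, hy⟩
  exact ⟨(RingEquiv.ofBijective ψ ⟨ψ.injective, hsurj⟩).symm⟩

theorem frac_transport {K E : Type} [Field K] [Field E] (e : K ≃+* E) (m : ℕ)
    (P : Ideal (MvPolynomial (Fin m) K)) [P.IsPrime] :
    ∃ (P' : Ideal (MvPolynomial (Fin m) E)) (_ : P'.IsPrime),
      Nonempty (FractionRing (MvPolynomial (Fin m) K ⧸ P) ≃+*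
        FractionRing (MvPolynomial (Fin m) E ⧸ P')) := by
  let g : MvPolynomial (Fin m) K ≃+* MvPolynomial (Fin m) E := MvPolynomial.mapEquiv (Fin m) e
  have hP : (P.map (g : MvPolynomial (Fin m) K →+* MvPolynomial (Fin m) E)).IsPrime :=
    Ideal.map_isPrime_of_equiv g
  refine ⟨P.map (g : MvPolynomial (Fin m) K →+* MvPolynomial (Fin m) E), hP, ?_⟩
  exact ⟨IsFractionRing.ringEquivOfRingEquiv (Ideal.quotientEquiv P _ g rfl)⟩

theorem countable_mvpoly {E : Type} [Field E] [Countable E] (m : ℕ) :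
    Countable (MvPolynomial (Fin m) E) := by
  rw [← Cardinal.mk_le_aleph0_iff]
  refine MvPolynomial.cardinalMk_le_max.trans ?_
  exact max_le (max_le Cardinal.mk_le_aleph0 Cardinal.mk_le_aleph0) le_rfl

theorem countable_ideal {R : Type} [CommRing R] [IsNoetherianRing R] [Countable R] :
    Countable (Ideal R) := by
  refine Function.Surjective.countable (f := fun S : Finset R => Ideal.span (S : Set R))
    fun P => ?_
  obtain ⟨S, hS⟩ := IsNoetherian.noetherian P
  exact ⟨S, hS⟩

theorem countable_frac {R : Type} [CommRing R] [IsDomain R] [Countable R] :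
    Countable (FractionRing R) := by
  refine Function.Surjective.countable
    (f := fun q : R × R => algebraMap R (FractionRing R) q.1 / algebraMap R (FractionRing R) q.2)
    fun x => ?_
  obtain ⟨a, b, -, h⟩ := IsFractionRing.div_surjective (A := R) x
  exact ⟨(a, b), h⟩

theorem pf_FGZ : G_FGZ := by
  obtain ⟨J, hJ, E, hE, hEc, hiso⟩ := Pool.Agent.H78.UB.pf_STZ
  have hc : ∀ (j : J) (m : ℕ), Countable (MvPolynomial (Fin m) (E j)) := fun j m =>
    countable_mvpoly m
  refine ⟨Σ j : J, Σ m : ℕ, {P : Ideal (MvPolynomial (Fin m) (E j)) // P.IsPrime}, ?_,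
    fun i => FractionRing (MvPolynomial (Fin i.2.1) (E i.1) ⧸ i.2.2.1), fun i => ?_, fun i => ?_,
    ?_⟩
  · have : ∀ (j : J) (m : ℕ), Countable (Ideal (MvPolynomial (Fin m) (E j))) := fun j m =>
      countable_ideal
    infer_instance
  · have := i.2.2.2
    infer_instance
  · have := i.2.2.2
    have h1 : Countable (MvPolynomial (Fin i.2.1) (E i.1) ⧸ i.2.2.1) :=
      Ideal.Quotient.mk_surjective.countable
    exact countable_frac
  · intro K₀ k₀ _ _ _ _ _ hfg
    obtain ⟨m, P, hP, ⟨g⟩⟩ := fg_frac hfg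
    obtain ⟨j, ⟨e⟩⟩ := hiso K₀
    obtain ⟨P', hP', ⟨g'⟩⟩ := frac_transport e m P
    exact ⟨⟨j, m, P', hP'⟩, ⟨g.trans g'⟩⟩

end Pool.Agent.H1.UG
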