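import Pool.Agent.H8.UG.Targets
import Pool.Agent.H8.UB.MOC

set_option autoImplicit false

open CategoryTheory

namespace Pool.Agent.H1.UG

open Pool.Agent.H8.UG Pool.Agent.H8.UB Pool.Agent.H56.UDs

theorem pf_SPN : G_SPN := by
  intro S T _ _ f d σ h A hA
  obtain ⟨X, ξ, hξ, hgen⟩ := hA
  let ξ' : (UF S).obj ((resF h.fin).obj X) := ξ
  refine ⟨gen (F := UF S) ξ', gen_fg _, ?_, ?_⟩
  · intro M y hy
    obtain ⟨g, hg⟩ := hgen M y hy
    exact ⟨(resF h.fin).map g, hg⟩
  · intro D hD M x hx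
    obtain ⟨ψ, hψ⟩ := hx
    let ψ' : X →+ M := ψ.hom.hom.toAddMonoidHom
    have hψ' : ∀ (a : S) (x : X), ψ' (f a • x) = f a • ψ' x := fun a x =>
      ψ.hom.hom.map_smul a x
    obtain ⟨φ, hφ, hs⟩ := h.dec X M ψ' hψ'
    have hx' : x = ∑ i, φ i ξ := by
      rw [← hs]
      exact hψ.symm
    rw [hx']
    refine AddSubgroup.sum_mem (D.car M) fun i _ => ?_
    refine hD i M ?_
    let g : X ⟶ (resF (finHom_equiv (σ i))).obj M :=
      haveI := rs_finite (finHom_equiv (σ i)) M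
      FGModuleCat.ofHom (show (X : Type) →ₗ[T] RS ((σ i : T ≃+* T) : T →+* T) M from
        { toFun := φ i
          map_add' := (φ i).map_add
          map_smul' := fun t x => hφ i t x })
    exact A.map_mem g ξ hξ

end Pool.Agent.H1.UG
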