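import Pool.Agent.H24.UG.T7
import Pool.Agent.H75.AG.S5

/-!
# MP_c59857_nt (uniform local gap): row US5 of the board `ulg_modules` (average over the shift)
-/

set_option autoImplicit false

open MeasureTheory ProbabilityTheory Filter Topology Finset
open scoped Nat ENNReal

namespace Pool.Agent.H1.UG

open Pool.Agent.H24.UG
open Pool.Agent.H67.AG (avgP Inv Av Tup dl Dlt Mis Sw SwE T_ME)
open Pool.Agent.H75.AG

theorem pf_US5 (hme : Pool.Agent.H67.AG.T_ME) : T_US5 := by
  intro d e γ
  have h1 := key_ae (P := e.P) (fun t => Mis e.P (Inv e.T d.W) e.ys (e.yt t)) (PhiL e)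
    (γ / 8) (fun t => Mis_meas e _ _) (fun t => Mis_int e _ _) (PhiL_meas e) (PhiL_int e)
    (fun ε hε => close_Phi e hme ε hε)
  have h2 := Filter.eventually_all.2 (qq_nn e)
  filter_upwards [h1, h2, qq_sum e] with ω h1 h2 h3 h4
  have h5 := h1 h4
  by_contra hcon
  push Not at hcon
  have h6 : γ / 8 < PhiL e ω := by
    obtain ⟨b₀, _, hb₀⟩ : ∃ b ∈ (Finset.univ : Finset (Fin d.n)), 0 < qq e b ω := by
      by_contra hno
      push Not at hno
      have : ∑ b, qq e b ω ≤ 0 := Finset.sum_nonpos fun b hb => hno b hb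
      linarith
    calc γ / 8 = ∑ b, qq e b ω * (γ / 8) := by
          rw [← Finset.sum_mul, h3, one_mul]
      _ < PhiL e ω := by
          unfold PhiL
          refine Finset.sum_lt_sum (fun b _ => mul_le_mul_of_nonneg_left (hcon b).le (h2 b))
            ⟨b₀, Finset.mem_univ _, mul_lt_mul_of_pos_left (hcon b₀) hb₀⟩
  linarith

end Pool.Agent.H1.UG
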